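import Pool.Agent.Helper67.CA.FP

set_option autoImplicit false

namespace Pool.Agent.Helper74.CA

open Subgroup

theorem st_COS (h1 : ST_FP) : ST_COS := by
  intro G _ _ a n N han hcop hN x hx
  let Om := {y : G // x⁻¹ * y ∈ N}
  let iM : MulAction N Om :=
    { smul := fun m y => ⟨y.1 * (m.1)⁻¹, by
        rw [← mul_assoc]
        exact mul_mem y.2 (inv_mem m.2)⟩
      one_smul := fun y => Subtype.ext (by
        show y.1 * ((1 : N) : G)⁻¹ = y.1
        simp)
      mul_smul := fun s t y => Subtype.ext (by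
        show y.1 * ((s * t : N) : G)⁻¹ = (y.1 * (t.1)⁻¹) * (s.1)⁻¹
        simp [mul_assoc]) }
  have hsm : ∀ (s : N) (y : Om), ((s • y : Om) : G) = y.1 * (s.1)⁻¹ := fun _ _ => rfl
  have iN : Nonempty Om := ⟨⟨x, by simp⟩⟩
  have hT : ∀ y : Om, x⁻¹ * a y.1 ∈ N := by
    intro y
    have h2 : x⁻¹ * a y.1 = (x⁻¹ * a x) * a (x⁻¹ * y.1) := by
      rw [map_mul, map_inv]
      group
    rw [h2]
    exact mul_mem hx (hN _ y.2)
  have hit : ∀ (k : ℕ) (y : Om), (((fun t : Om => (⟨a t.1, hT t⟩ : Om))^[k] y : Om) : G)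
      = (a ^ k) y.1 := by
    intro k
    induction k with
    | zero => intro y; simp
    | succ k ihk =>
      intro y
      rw [Function.iterate_succ_apply']
      show a _ = _
      rw [ihk, pow_succ' a, MulAut.mul_apply]
  obtain ⟨y, hy⟩ := h1 N Om (fpRes N a hN) (fun t : Om => (⟨a t.1, hT t⟩ : Om)) n
    (by
      intro g g'
      refine ⟨⟨g'.1⁻¹ * g.1, ?_⟩, ?_⟩
      · have h3 : g'.1⁻¹ * g.1 = (x⁻¹ * g'.1)⁻¹ * (x⁻¹ * g.1) := by group
        rw [h3]
        exact mul_mem (inv_mem g'.2) g.2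
      · apply Subtype.ext
        rw [hsm]
        show g.1 * (g'.1⁻¹ * g.1)⁻¹ = g'.1
        group)
    (by
      ext s
      rw [fpRes_pow, han]
      rfl)
    (by
      intro g
      apply Subtype.ext
      rw [hit, han]
      rfl)
    hcop
    (by
      intro s g
      apply Subtype.ext
      show a (g.1 * (s.1)⁻¹) = a g.1 * (a s.1)⁻¹
      rw [map_mul, map_inv])
  refine ⟨x⁻¹ * y.1, y.2, ?_⟩
  have h4 : a y.1 = y.1 := congrArg Subtype.val hy
  rw [mul_inv_cancel_left, h4]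

end Pool.Agent.Helper74.CA
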