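import Pool.Agent.Helper74.CA.Stmts

set_option autoImplicit false

namespace Pool.Agent.Helper74.CA

open Subgroup

theorem fp_iter {G Ω : Type} [Group G] [MulAction G Ω] (a : MulAut G) (α : Ω → Ω)
    (h : ∀ (g : G) (x : Ω), α (g • x) = a g • α x) (k : ℕ) :
    ∀ (g : G) (x : Ω), α^[k] (g • x) = (a ^ k) g • α^[k] x := by
  induction k with
  | zero => intro g x; simp
  | succ k ih =>
    intro g x
    rw [Function.iterate_succ_apply', ih, h, Function.iterate_succ_apply', pow_succ']
    rfl

/-- the restriction of an automorphism to a stable finite subgroup -/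
noncomputable def fpRes {G : Type} [Group G] (S : Subgroup G) [Finite S] (b : MulAut G)
    (hb : ∀ s ∈ S, b s ∈ S) : MulAut S :=
  MulEquiv.ofBijective
    (({ toFun := fun s => ⟨b s, hb s s.2⟩
        map_one' := Subtype.ext (map_one b)
        map_mul' := fun x y => Subtype.ext (map_mul b (x : G) (y : G)) } : S →* S))
    (Finite.injective_iff_bijective.1 (by
      intro x y hxy
      apply Subtype.ext
      apply b.injective
      exact congrArg Subtype.val hxy))

theorem fpRes_coe {G : Type} [Group G] (S : Subgroup G) [Finite S] (b : MulAut G)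
    (hb : ∀ s ∈ S, b s ∈ S) (s : S) : ((fpRes S b hb s : S) : G) = b s := rfl

theorem fpRes_pow {G : Type} [Group G] (S : Subgroup G) [Finite S] (b : MulAut G)
    (hb : ∀ s ∈ S, b s ∈ S) (k : ℕ) (s : S) :
    ((((fpRes S b hb) ^ k) s : S) : G) = (b ^ k) (s : G) := by
  induction k with
  | zero => simp
  | succ k ih =>
    rw [pow_succ', pow_succ', MulAut.mul_apply, MulAut.mul_apply, fpRes_coe, ih]

theorem st_FP : ST_FP := by
  intro G Ω _ _ _ _ _ a α n
  induction n using Nat.strong_induction_on generalizing G Ω with
  | _ n ih =>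
    rename_i i1 i2 i3 i4 i5
    intro htr han hαn hcop heq
    rcases Nat.eq_zero_or_pos n with h0 | hpos
    · subst h0
      rw [Nat.coprime_zero_left] at hcop
      have hsub : Subsingleton G := (Nat.card_eq_one_iff_unique.1 hcop).1
      obtain ⟨x⟩ := i4
      obtain ⟨g, hg⟩ := htr x (α x)
      refine ⟨x, ?_⟩
      rw [← hg, Subsingleton.elim g 1, one_smul]
    rcases Nat.eq_or_lt_of_le hpos with h1 | h1
    · have hn : n = 1 := by omega
      subst hn
      obtain ⟨x⟩ := i4
      exact ⟨x, hαn x⟩
    -- now n > 1
    have hq : (n.minFac).Prime := Nat.minFac_prime (by omega)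
    set q := n.minFac with hqd
    obtain ⟨n', hn'⟩ := Nat.minFac_dvd n
    rw [← hqd] at hn'
    have hn'pos : 0 < n' := by
      rcases Nat.eq_zero_or_pos n' with h | h
      · rw [h, mul_zero] at hn'
        omega
      · exact h
    have hlt : n' < n := by
      rw [hn']
      have := hq.two_le
      nlinarith
    have hbn : (a ^ q) ^ n' = 1 := by rw [← pow_mul, ← hn', han]
    have hβn : ∀ x, (α^[q])^[n'] x = x := by
      intro x
      rw [← Function.iterate_mul, ← hn', hαn]
    have hcop' : n'.Coprime (Nat.card G) :=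
      Nat.Coprime.coprime_dvd_left ⟨q, by rw [hn']; ring⟩ hcop
    have hqG : ¬ q ∣ Nat.card G := by
      intro hd
      have h2 : q ∣ Nat.gcd n (Nat.card G) := Nat.dvd_gcd ⟨n', hn'⟩ hd
      rw [Nat.Coprime] at hcop
      rw [hcop] at h2
      exact hq.one_lt.ne' (Nat.dvd_one.1 h2)
    have heqβ := fp_iter a α heq q
    obtain ⟨x₀, hx₀⟩ := ih n' hlt G Ω (a ^ q) (α^[q]) htr hbn hβn hcop' heqβ
    have hinj : Function.Injective (α^[q]) := by
      intro x y hxy
      have h3 : ∀ k, (α^[q])^[k + 1] x = (α^[q])^[k + 1] y := by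
        intro k
        rw [Function.iterate_succ_apply, Function.iterate_succ_apply, hxy]
      obtain ⟨k, hk⟩ : ∃ k, n' = k + 1 := ⟨n' - 1, by omega⟩
      rw [← hβn x, ← hβn y, hk, h3 k]
    -- transitivity of the fixed group
    have htrans : ∀ x y : Ω, (α^[q]) x = x → (α^[q]) y = y →
        ∃ g : G, (a ^ q) g = g ∧ g • x = y := by
      intro x y hx hy
      have hS : ∀ s ∈ MulAction.stabilizer G x, (a ^ q) s ∈ MulAction.stabilizer G x := by
        intro s hs
        rw [MulAction.mem_stabilizer_iff] at hs ⊢
        have := heqβ s x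
        rw [hs, hx] at this
        exact this.symm
      let Tt := {g : G // g • x = y}
      let iM : MulAction (MulAction.stabilizer G x) Tt :=
        { smul := fun s g => ⟨g.1 * (s.1)⁻¹, by
            rw [mul_smul, MulAction.mem_stabilizer_iff.1 (inv_mem s.2), g.2]⟩
          one_smul := fun g => Subtype.ext (by
            show g.1 * ((1 : MulAction.stabilizer G x) : G)⁻¹ = g.1
            simp)
          mul_smul := fun s t g => Subtype.ext (by
            show g.1 * ((s * t : MulAction.stabilizer G x) : G)⁻¹ = (g.1 * (t.1)⁻¹) * (s.1)⁻¹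
            simp [mul_assoc]) }
      have hsm : ∀ (s : MulAction.stabilizer G x) (g : Tt), ((s • g : Tt) : G) = g.1 * (s.1)⁻¹ :=
        fun s g => rfl
      have iN : Nonempty Tt := by
        obtain ⟨g, hg⟩ := htr x y
        exact ⟨⟨g, hg⟩⟩
      have hT : ∀ g : Tt, (a ^ q) g.1 • x = y := by
        intro g
        have := heqβ g.1 x
        rw [g.2, hx, hy] at this
        exact this.symm
      have hitT : ∀ (k : ℕ) (g : Tt), (((fun t : Tt => (⟨(a ^ q) t.1, hT t⟩ : Tt))^[k] g : Tt) : G)
          = ((a ^ q) ^ k) g.1 := by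
        intro k
        induction k with
        | zero => intro g; simp
        | succ k ihk =>
          intro g
          rw [Function.iterate_succ_apply']
          show (a ^ q) _ = _
          rw [ihk, pow_succ' (a ^ q), MulAut.mul_apply]
      obtain ⟨t, ht⟩ := ih n' hlt (MulAction.stabilizer G x) Tt
        (fpRes (MulAction.stabilizer G x) (a ^ q) hS)
        (fun t : Tt => (⟨(a ^ q) t.1, hT t⟩ : Tt))
        (by
          intro g g'
          refine ⟨⟨g'.1⁻¹ * g.1, ?_⟩, ?_⟩
          · rw [MulAction.mem_stabilizer_iff, mul_smul, g.2, inv_smul_eq_iff, g'.2]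
          · apply Subtype.ext
            rw [hsm]
            show g.1 * (g'.1⁻¹ * g.1)⁻¹ = g'.1
            group)
        (by
          ext s
          rw [fpRes_pow, hbn]
          rfl)
        (by
          intro g
          apply Subtype.ext
          rw [hitT, hbn]
          rfl)
        (Nat.Coprime.coprime_dvd_right (Subgroup.card_subgroup_dvd_card _) hcop')
        (by
          intro s g
          apply Subtype.ext
          show (a ^ q) (g.1 * (s.1)⁻¹) = (a ^ q) g.1 * ((a ^ q) s.1)⁻¹
          rw [map_mul, map_inv])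
      exact ⟨t.1, congrArg Subtype.val ht, t.2⟩
    -- the fixed group
    let Gb : Subgroup G :=
      { carrier := {g | (a ^ q) g = g}
        mul_mem' := by
          intro x y hx hy
          show (a ^ q) (x * y) = x * y
          rw [map_mul]
          exact congrArg₂ _ hx hy
        one_mem' := map_one _
        inv_mem' := by
          intro x hx
          show (a ^ q) x⁻¹ = x⁻¹
          rw [map_inv]
          exact congrArg _ hx }
    have horb : MulAction.orbit Gb x₀ = {x | (α^[q]) x = x} := by
      ext x
      rw [MulAction.mem_orbit_iff]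
      constructor
      · rintro ⟨g, rfl⟩
        show (α^[q]) (g.1 • x₀) = g.1 • x₀
        have hg : (a ^ q) g.1 = g.1 := g.2
        rw [heqβ, hg, hx₀]
      · intro hx
        obtain ⟨g, hg1, hg2⟩ := htrans x₀ x hx₀ hx
        exact ⟨⟨g, hg1⟩, hg2⟩
    have hcard : Nat.card {x : Ω // (α^[q]) x = x} ∣ Nat.card G := by
      have h4 := MulAction.index_stabilizer Gb x₀
      rw [horb] at h4
      have h5 : Nat.card {x : Ω // (α^[q]) x = x} = ({x | (α^[q]) x = x} : Set Ω).ncard := rfl
      rw [h5, ← h4]
      exact (Subgroup.index_dvd_card _).trans (Subgroup.card_subgroup_dvd_card Gb)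
    have hmap : ∀ x : {x : Ω // (α^[q]) x = x}, (α^[q]) (α x.1) = α x.1 := by
      intro x
      rw [← Function.iterate_succ_apply, Function.iterate_succ_apply', x.2]
    classical
    have iF : Fintype {x : Ω // (α^[q]) x = x} := Fintype.ofFinite _
    have iQ : Fact q.Prime := ⟨hq⟩
    let f : Function.End {x : Ω // (α^[q]) x = x} := fun x => ⟨α x.1, hmap x⟩
    have hfk : ∀ (k : ℕ) (x : {x : Ω // (α^[q]) x = x}), (((f ^ k) x : {x : Ω // (α^[q]) x = x}) : Ω)
        = α^[k] x.1 := by
      intro k
      induction k with
      | zero => intro x; rfl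
      | succ k ihk =>
        intro x
        rw [pow_succ']
        show α ((f ^ k) x).1 = _
        rw [ihk, Function.iterate_succ_apply']
    have hf : f ^ q ^ 1 = 1 := by
      funext x
      apply Subtype.ext
      rw [pow_one, hfk, x.2]
      rfl
    have hmod := Equiv.Perm.card_fixedPoints_modEq hf
    have hne : Nonempty (Function.fixedPoints f) := by
      rw [← Fintype.card_pos_iff]
      by_contra hc
      have h6 : Fintype.card (Function.fixedPoints f) = 0 := by omega
      rw [h6] at hmod
      have h7 : q ∣ Fintype.card {x : Ω // (α^[q]) x = x} := (Nat.modEq_zero_iff_dvd).1 hmod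
      rw [← Nat.card_eq_fintype_card] at h7
      exact hqG (h7.trans hcard)
    obtain ⟨⟨x, hx⟩⟩ := hne
    exact ⟨x.1, congrArg Subtype.val hx⟩

end Pool.Agent.Helper74.CA
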