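import Pool.Agent.Helper74.CA.Stmts

set_option autoImplicit false

namespace Pool.Agent.Helper74.CA

open Subgroup

open scoped Pointwise

theorem st_SYL (h1 : ST_FP) : ST_SYL := by
  intro G _ _ a n p hp han hcop
  have iP : Fact p.Prime := ⟨hp⟩
  have hpow : ∀ (k : ℕ) (P : Sylow p G), (fun P : Sylow p G => a • P)^[k] P = (a ^ k) • P := by
    intro k
    induction k with
    | zero => intro P; simp
    | succ k ih =>
      intro P
      rw [Function.iterate_succ_apply', ih, pow_succ', mul_smul]
  obtain ⟨P, hP⟩ := h1 G (Sylow p G) a (fun P => a • P) n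
    (fun x y => MulAction.exists_smul_eq G x y) han
    (by
      intro P
      rw [hpow, han, one_smul])
    hcop
    (by
      intro g P
      have e1 : g • P = MulAut.conj g • P := rfl
      have e2 : a g • (a • P) = MulAut.conj (a g) • (a • P) := rfl
      show a • (g • P) = a g • (a • P)
      rw [e1, e2, ← mul_smul, ← mul_smul]
      congr 1
      ext x
      simp [MulAut.mul_apply, MulAut.conj_apply])
  refine ⟨P, P.isPGroup', ?_, ?_, ?_⟩
  · intro x hx
    have h2 : a • P = P := hP
    have h3 : a x ∈ a • P := by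
      have h4 : a • x ∈ a • P := by
        exact Subgroup.smul_mem_pointwise_smul x a (P : Subgroup G) hx
      exact h4
    rw [h2] at h3
    exact h3
  · intro hd
    exact P.ne_bot_of_dvd_card hd
  · intro g hg
    have hz : IsPGroup p (zpowers g) := by
      obtain ⟨j, hj⟩ := hg
      intro x
      refine ⟨j, ?_⟩
      obtain ⟨y, hy⟩ := x
      obtain ⟨i, rfl⟩ := mem_zpowers_iff.1 hy
      apply Subtype.ext
      show (g ^ i) ^ p ^ j = 1
      rw [← zpow_natCast, zpow_comm, zpow_natCast, hj, one_zpow]
    obtain ⟨Q, hQ⟩ := hz.exists_le_sylow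
    obtain ⟨h, hh⟩ := MulAction.exists_smul_eq G Q P
    refine ⟨h, ?_⟩
    have h5 : h * g * h⁻¹ ∈ h • Q := by
      have h6 : (MulAut.conj h) • g ∈ (MulAut.conj h) • (Q : Subgroup G) :=
        Subgroup.smul_mem_pointwise_smul g (MulAut.conj h) (Q : Subgroup G)
          (hQ (mem_zpowers g))
      exact h6
    rw [hh] at h5
    exact h5

end Pool.Agent.Helper74.CA
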