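import Pool.Agent.Helper74.CA.Stmts

set_option autoImplicit false

namespace Pool.Agent.Helper74.CA

open Subgroup

theorem two_comm {G : Type} [Group G] {p q : G} (hp : p ^ 2 = 1) (hq : q ^ 2 = 1)
    (h : (p * q) ^ 2 = 1) : p * q = q * p := by
  have hp' : p⁻¹ = p := by
    rw [inv_eq_iff_mul_eq_one, ← pow_two, hp]
  have hq' : q⁻¹ = q := by
    rw [inv_eq_iff_mul_eq_one, ← pow_two, hq]
  have h' : (p * q)⁻¹ = p * q := by
    rw [inv_eq_iff_mul_eq_one, ← pow_two, h]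
  rw [← h', mul_inv_rev, hp', hq']

theorem st_TWO (h1 : ST_COS) : ST_TWO := by
  intro P _ _ a n han hcop hfix hS g
  -- any two elements of `S` commute
  have key : ∀ x y : P, (x⁻¹ * a x) * (y⁻¹ * a y) = (y⁻¹ * a y) * (x⁻¹ * a x) := by
    intro x z
    have h2 : ∀ y : P, Commute (x⁻¹ * a x) (a y * y⁻¹) := by
      intro y
      have e1 : (y⁻¹ * (x⁻¹ * a x) * y) ^ 2 = 1 := by
        have : y⁻¹ * (x⁻¹ * a x) * y = y⁻¹ * (x⁻¹ * a x) * y⁻¹⁻¹ := by rw [inv_inv]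
        rw [this, conj_pow, hS]
        group
      have e2 := hS y
      have e3 : ((y⁻¹ * (x⁻¹ * a x) * y) * (y⁻¹ * a y)) ^ 2 = 1 := by
        have := hS (x * y)
        rw [← this]
        congr 1
        rw [map_mul, mul_inv_rev]
        group
      have e4 := two_comm e1 e2 e3
      show (x⁻¹ * a x) * (a y * y⁻¹) = (a y * y⁻¹) * (x⁻¹ * a x)
      have e5 : (x⁻¹ * a x) * (a y * y⁻¹) =
          y * ((y⁻¹ * (x⁻¹ * a x) * y) * (y⁻¹ * a y)) * y⁻¹ := by group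
      have e6 : (a y * y⁻¹) * (x⁻¹ * a x) =
          y * ((y⁻¹ * a y) * (y⁻¹ * (x⁻¹ * a x) * y)) * y⁻¹ := by group
      rw [e5, e6, e4]
    have h3 := h2 z⁻¹
    have e7 : a z⁻¹ * z⁻¹⁻¹ = (z⁻¹ * a z)⁻¹ := by
      rw [map_inv]
      group
    rw [e7] at h3
    exact (Commute.inv_right_iff.1 h3).eq
  let N : Subgroup P := closure {y | ∃ x, y = x⁻¹ * a x}
  have hmem : ∀ x, x⁻¹ * a x ∈ N := fun x => subset_closure ⟨x, rfl⟩
  have hle1 : N ≤ centralizer {y | ∃ x, y = x⁻¹ * a x} := by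
    rw [closure_le]
    rintro _ ⟨x, rfl⟩
    rw [SetLike.mem_coe, mem_centralizer_iff]
    rintro _ ⟨y, rfl⟩
    exact key y x
  have hle2 : N ≤ centralizer (N : Set P) := by
    rw [closure_le]
    rintro _ ⟨x, rfl⟩
    rw [SetLike.mem_coe, mem_centralizer_iff]
    intro y hy
    exact (mem_centralizer_iff.1 (hle1 hy) _ ⟨x, rfl⟩).symm
  have hNc : ∀ x ∈ N, ∀ y ∈ N, x * y = y * x := fun x hx y hy =>
    (mem_centralizer_iff.1 (hle2 hx) y hy).symm
  have hN2 : ∀ x ∈ N, x ^ 2 = 1 := by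
    intro x hx
    induction hx using closure_induction with
    | mem x h => obtain ⟨y, rfl⟩ := h; exact hS y
    | one => exact one_pow 2
    | mul x y hx hy ihx ihy =>
      rw [(show Commute x y from hNc x hx y hy).mul_pow, ihx, ihy, one_mul]
    | inv x hx ih => rw [inv_pow, ih, inv_one]
  have hNa : ∀ x ∈ N, a x ∈ N := by
    intro x hx
    have : a x = x * (x⁻¹ * a x) := by group
    rw [this]
    exact mul_mem hx (hmem x)
  have hNn : ∀ h : P, ∀ x ∈ N, h * x * h⁻¹ ∈ N := by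
    intro h x hx
    induction hx using closure_induction with
    | mem x hx =>
      obtain ⟨y, rfl⟩ := hx
      have e : h * (y⁻¹ * a y) * h⁻¹ =
          ((y * h⁻¹)⁻¹ * a (y * h⁻¹)) * ((h⁻¹)⁻¹ * a h⁻¹)⁻¹ := by
        rw [map_mul, map_inv]
        group
      rw [e]
      exact mul_mem (hmem _) (inv_mem (hmem _))
    | one => simp
    | mul x y hx hy ihx ihy =>
      have e : h * (x * y) * h⁻¹ = (h * x * h⁻¹) * (h * y * h⁻¹) := by group
      rw [e]
      exact mul_mem ihx ihy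
    | inv x hx ih =>
      have e : h * x⁻¹ * h⁻¹ = (h * x * h⁻¹)⁻¹ := by group
      rw [e]
      exact inv_mem ih
  obtain ⟨m, hm, hfm⟩ := h1 P a n N han
    (Nat.Coprime.coprime_dvd_right (Subgroup.card_subgroup_dvd_card N) hcop) hNa g (hmem g)
  have hc2 : (g * m) ^ 2 = 1 := hfix _ hfm
  have hg2 : g ^ 2 ∈ N := by
    have hcc : (g * m) = (g * m)⁻¹ := by
      rw [eq_inv_iff_mul_eq_one, ← pow_two, hc2]
    have e : g ^ 2 = ((g * m) * m⁻¹ * (g * m)⁻¹) * m⁻¹ := by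
      calc g ^ 2 = (g * m) * m⁻¹ * ((g * m) * m⁻¹) := by rw [mul_inv_cancel_right, pow_two]
        _ = (g * m) * m⁻¹ * ((g * m)⁻¹ * m⁻¹) := by rw [← hcc]
        _ = _ := by group
    rw [e]
    exact mul_mem (hNn _ _ (inv_mem hm)) (inv_mem hm)
  have := hN2 _ hg2
  rw [← pow_mul] at this
  exact this

end Pool.Agent.Helper74.CA
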